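import Pool.Agent.TH977.IP.Fin1

/-! The law of the block sums in residue classes mod `3^m`, for invariant sets of `3x+d`. -/

set_option autoImplicit false

namespace Pool.Agent.TH977.IP

open Pool.Agent.H320R2.PD Pool.Agent.H499R2.ND Finset Filter Topology

open Pool.Agent.H319R2.Lln (mu)

/-- the odd elements of an invariant set in a window -/
theorem clI_odd' {d : ℤ} {S : Set ℤ} (hS : Inv d S) {A : ℝ} (hA : 0 < A) :
    ((cls S A (2 * A) 0 1 0).card : ℝ) = G S (2 * A) - 2 * G S A + G S (A / 2) := by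
  classical
  have h1 := odd_G hS (show 0 < 2 * A by positivity)
  have h2 := odd_G hS hA
  have e : 2 * A / 2 = A := by ring
  rw [e] at h1
  have hun : cls S 0 (2 * A) 0 1 0 = cls S 0 A 0 1 0 ∪ cls S A (2 * A) 0 1 0 := by
    ext x
    rw [mem_union, mem_cls, mem_cls, mem_cls]
    constructor
    · rintro ⟨⟨h1, h2⟩, h3⟩
      rcases lt_or_ge (x : ℝ) A with h | h
      · exact Or.inl ⟨⟨h1, h⟩, h3⟩
      · exact Or.inr ⟨⟨h, h2⟩, h3⟩
    · rintro (⟨⟨h1, h2⟩, h3⟩ | ⟨⟨h1, h2⟩, h3⟩)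
      · exact ⟨⟨h1, by linarith⟩, h3⟩
      · exact ⟨⟨by linarith, h2⟩, h3⟩
  have hdisj : Disjoint (cls S 0 A 0 1 0) (cls S A (2 * A) 0 1 0) := by
    rw [Finset.disjoint_left]
    intro x hx hx'
    rw [mem_cls] at hx hx'
    linarith [hx.1.2, hx'.1.1]
  have hcard : ((cls S 0 (2 * A) 0 1 0).card : ℝ) =
      (cls S 0 A 0 1 0).card + (cls S A (2 * A) 0 1 0).card := by
    rw [hun, card_union_of_disjoint hdisj]
    push_cast
    rfl
  linarith

theorem class_bound' {d : ℤ} (hd : Odd d) (hd3 : IsCoprime d 3) {S : Set ℤ} (hS : Inv d S) {δ : ℝ}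
    (hδ : Tendsto (fun X : ℝ => G S X / X) atTop (𝓝 δ)) {ε : ℝ} (hε : 0 < ε) :
    ∃ A0 : ℝ, 0 < A0 ∧ ∀ A : ℝ, A0 ≤ A → ∀ m : ℕ, (m : ℝ) ^ 2 ≤ Real.log A →
      PB S A m (δ + ε) := by
  obtain ⟨C, hC, hequi⟩ := equi_odd 1 (d := d) hd hd3
  have hlim : Tendsto (fun A : ℝ => (G S (2 * A) - 2 * G S A + G S (A / 2)) / A) atTop
      (𝓝 (2 * δ - 2 * δ + δ / 2)) := by
    have t1 : Tendsto (fun A : ℝ => 2 * (G S (2 * A) / (2 * A))) atTop (𝓝 (2 * δ)) :=
      (hδ.comp (tendsto_id.const_mul_atTop (by norm_num : (0 : ℝ) < 2))).const_mul 2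
    have t2 : Tendsto (fun A : ℝ => 2 * (G S A / A)) atTop (𝓝 (2 * δ)) := hδ.const_mul 2
    have t3 : Tendsto (fun A : ℝ => G S (A / 2) / (A / 2) / 2) atTop (𝓝 (δ / 2)) :=
      (hδ.comp (tendsto_id.atTop_div_const (by norm_num : (0 : ℝ) < 2))).div_const 2
    refine ((t1.sub t2).add t3).congr' ?_
    filter_upwards [eventually_gt_atTop 0] with A hA
    field_simp
  have e1 : ∀ᶠ A : ℝ in atTop, (G S (2 * A) - 2 * G S A + G S (A / 2)) / A < δ / 2 + ε / 4 := by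
    refine (tendsto_order.1 hlim).2 _ ?_
    linarith
  have e2 : ∀ᶠ A : ℝ in atTop, max 1000 (2 * C / ε) ≤ Real.log A :=
    Real.tendsto_log_atTop.eventually_ge_atTop _
  obtain ⟨A1, hA1⟩ := eventually_atTop.1 (e1.and e2)
  refine ⟨max A1 1, lt_of_lt_of_le zero_lt_one (le_max_right _ _), ?_⟩
  intro A hA m hm u v hu
  have hA0 : 0 < A := lt_of_lt_of_le zero_lt_one ((le_max_right _ _).trans hA)
  obtain ⟨h1, h2⟩ := hA1 A ((le_max_left _ _).trans hA)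
  have hlog : 1000 ≤ Real.log A := (le_max_left _ _).trans h2
  have hlog2 : 2 * C / ε ≤ Real.log A := (le_max_right _ _).trans h2
  obtain ⟨c, hc⟩ := cls_unit S A (2 * A) m hu v
  rw [hc]
  have hq := fun c' : ℤ => hequi S hS.fwd hS.compl.fwd A hA0 hlog m hm c c'
  have hsum : ∑ c' ∈ range (3 ^ m), ((cls S A (2 * A) m 1 c).card : ℝ) ≤
      ∑ c' ∈ range (3 ^ m), (((cls S A (2 * A) m 1 (c' : ℤ)).card : ℝ) +
        C / (Real.log A) ^ 1 * (A / (2 * 3 ^ m))) := sum_le_sum fun c' _ => hq c'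
  rw [sum_add_distrib, clI_sum, clI_odd' hS hA0, sum_const, sum_const, card_range, nsmul_eq_mul,
    nsmul_eq_mul] at hsum
  rw [div_lt_iff₀ hA0] at h1
  push_cast at hsum
  have hCl : C / Real.log A ≤ ε / 2 := by
    rw [div_le_div_iff₀ (by linarith) (by norm_num)]
    rw [div_le_iff₀ hε] at hlog2
    linarith
  set x : ℝ := ((cls S A (2 * A) m 1 c).card : ℝ) with hx
  have h3 : (0 : ℝ) < 3 ^ m := by positivity
  have h4 : (3 : ℝ) ^ m * (C / Real.log A ^ 1 * (A / (2 * 3 ^ m))) = C / Real.log A * (A / 2) := by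
    rw [pow_one]
    field_simp
  rw [h4] at hsum
  have h5 : (δ + ε) * (A / (2 * 3 ^ m)) = ((δ + ε) * (A / 2)) / 3 ^ m := by
    field_simp
  rw [h5, le_div_iff₀ h3]
  have h6 : C / Real.log A * (A / 2) ≤ ε / 2 * (A / 2) :=
    mul_le_mul_of_nonneg_right hCl (by linarith)
  nlinarith

theorem win_cls {Z : Set ℤ} {r : ℝ} (hr : 0 ≤ r) {m : ℕ} {u v : ℤ} (hu : IsCoprime u 3) (I : ℕ) :
    ∀ X : ℝ, 0 < X → (∀ i < I, PB Z (X / 2 ^ (i + 1)) m r) →
    ((cls Z 0 X m u v).card : ℝ) ≤ r * (X / (2 * 3 ^ m)) + (X / 2 ^ I / (2 * 3 ^ m) + 1) := by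
  classical
  induction I with
  | zero =>
    intro X hX _
    have h := cls_card_le Z hX.le m hu v
    rw [sub_zero] at h
    rw [pow_zero, div_one]
    have : 0 ≤ r * (X / (2 * 3 ^ m)) := by positivity
    linarith
  | succ I ih =>
    intro X hX h
    have hsub : cls Z 0 X m u v ⊆ cls Z 0 (X / 2) m u v ∪ cls Z (X / 2) (2 * (X / 2)) m u v := by
      intro x hx
      rw [mem_cls] at hx
      rw [mem_union, mem_cls, mem_cls]
      rcases lt_or_ge (x : ℝ) (X / 2) with h1 | h1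
      · exact Or.inl ⟨⟨hx.1.1, h1⟩, hx.2⟩
      · exact Or.inr ⟨⟨h1, by linarith [hx.1.2]⟩, hx.2⟩
    have h1 : ((cls Z 0 X m u v).card : ℝ)
        ≤ (cls Z 0 (X / 2) m u v).card + (cls Z (X / 2) (2 * (X / 2)) m u v).card := by
      exact_mod_cast (card_le_card hsub).trans (card_union_le _ _)
    have h2 := ih (X / 2) (by positivity) (fun i hi => by
      have h3 := h (i + 1) (by omega)
      have e : X / 2 / 2 ^ (i + 1) = X / 2 ^ (i + 1 + 1) := by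
        rw [pow_succ (2 : ℝ) (i + 1), mul_comm ((2 : ℝ) ^ (i + 1)) 2, ← div_div]
      rw [e]; exact h3)
    have h3 := h 0 (by omega) u v hu
    rw [zero_add, pow_one] at h3
    have h4 : X / 2 / 2 ^ I = X / 2 ^ (I + 1) := by
      rw [pow_succ (2 : ℝ) I, mul_comm ((2 : ℝ) ^ I) 2, ← div_div]
    rw [h4] at h2
    have h5 : X / 2 / (2 * 3 ^ m) = X / (2 * 3 ^ m) / 2 := by ring
    rw [h5] at h2 h3
    linarith

theorem pow_small : ∀ ε : ℝ, 0 < ε → ∃ L0 : ℝ, ∀ L : ℝ, L0 ≤ L → ∀ m : ℕ, (m : ℝ) ^ 2 ≤ L / 4 →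
    (3 : ℝ) ^ m ≤ ε * Real.exp L := by
  intro ε hε
  refine ⟨max 4 (4 * |Real.log ε| ), fun L hL m hm => ?_⟩
  have hL4 : 4 ≤ L := (le_max_left _ _).trans hL
  have hLe : 4 * |Real.log ε| ≤ L := (le_max_right _ _).trans hL
  have hm0 : (0 : ℝ) ≤ m := Nat.cast_nonneg _
  have h1 : (m : ℝ) ≤ L / 4 := by
    by_contra hcon
    push Not at hcon
    nlinarith
  have hl3 : Real.log 3 ≤ 2 := by
    have := Real.log_two_lt_d9
    have := Pool.Agent.H499R2.ND.log3_le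
    linarith
  have h2 : (3 : ℝ) ^ m = Real.exp (Real.log 3 * m) := by
    rw [mul_comm (Real.log 3), Real.exp_nat_mul, Real.exp_log (by norm_num)]
  have h3 : ε * Real.exp L = Real.exp (Real.log ε + L) := by
    rw [Real.exp_add, Real.exp_log hε]
  rw [h2, h3]
  apply Real.exp_le_exp.2
  have h4 := neg_abs_le (Real.log ε)
  have h5 : Real.log 3 * m ≤ 2 * (L / 4) := mul_le_mul hl3 h1 hm0 (by norm_num)
  linarith

theorem upper_cls {κ : ℝ} (hκ : 0 < κ) (hκ1 : κ ≤ 1) {ε : ℝ} (hε : 0 < ε) : ∃ N0 : ℕ, ∀ N : ℕ, N0 ≤ N →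
    ∀ d : ℤ, Odd d → IsCoprime d 3 → |(d : ℝ)| ≤ Real.exp (κ * Real.log N / 20) →
    ∀ (S : Set ℤ) (ρ : ℝ), 0 ≤ ρ → ρ ≤ 2 →
    (∀ A : ℝ, 0 < A → κ * Real.log N / 2 ≤ Real.log A → ∀ m : ℕ, (m : ℝ) ^ 2 ≤ Real.log A → PB S A m ρ) →
    ∀ bs : List ℕ, (∀ b ∈ bs, κ * Real.log N ≤ b) →
    ((bs.sum : ℕ) : ℝ) ≤ (1 - κ) * Real.log N / (2 * mu) → ∀ E : List ℕ → Prop,
    ∀ (m : ℕ) (u v : ℤ), (m : ℝ) ^ 2 ≤ Real.log N / 4 → IsCoprime u 3 →
      ((cls (ZE d S bs E) 0 (N + 1) m u v).card : ℝ) ≤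
        (ρ * TJ.PP.real {ω : ℕ → ℕ | E (stf bs fun j => ω j + 1)} + ε) * (N / (2 * 3 ^ m)) := by
  obtain ⟨L0, hL0, hup⟩ := upper hκ hκ1 (show 0 < ε / 4 by positivity)
  obtain ⟨I, hI⟩ := exists_pow_lt_of_lt_one (by positivity : 0 < ε / 4) (by norm_num : (1 / 2 : ℝ) < 1)
  obtain ⟨L1, hL1⟩ := pow_small (ε / 16) (by positivity)
  refine ⟨max (max ⌈Real.exp L0⌉₊ ⌈Real.exp (8 * (1 + I) / κ)⌉₊)
    (max ⌈Real.exp L1⌉₊ (max 1 ⌈(2 + ε) * 8 / ε⌉₊)), ?_⟩
  intro N hN d hd hd3 hdL S ρ hρ hρ2 hPB bs hbs hsum E m u v hm hu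
  have hN1 : 1 ≤ N :=
    ((le_max_left _ _).trans ((le_max_right _ _).trans (le_max_right _ _))).trans hN
  have hNR : (1 : ℝ) ≤ N := by exact_mod_cast hN1
  have hNpos : (0 : ℝ) < N := by linarith
  have hNa : Real.exp L0 ≤ N := by
    refine (Nat.le_ceil _).trans ?_
    exact_mod_cast ((le_max_left _ _).trans (le_max_left _ _)).trans hN
  have hNb : Real.exp (8 * (1 + I) / κ) ≤ N := by
    refine (Nat.le_ceil _).trans ?_
    exact_mod_cast ((le_max_right _ _).trans (le_max_left _ _)).trans hN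
  have hNd : Real.exp L1 ≤ N := by
    refine (Nat.le_ceil _).trans ?_
    exact_mod_cast ((le_max_left _ _).trans (le_max_right _ _)).trans hN
  have hNc : (2 + ε) * 8 / ε ≤ N := by
    refine (Nat.le_ceil _).trans ?_
    exact_mod_cast ((le_max_right _ _).trans ((le_max_right _ _).trans (le_max_right _ _))).trans hN
  set L := Real.log N with hL
  have hLa : L0 ≤ L := (Real.le_log_iff_exp_le hNpos).2 hNa
  have hLb : 8 * (1 + I) / κ ≤ L := (Real.le_log_iff_exp_le hNpos).2 hNb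
  have hLd : L1 ≤ L := (Real.le_log_iff_exp_le hNpos).2 hNd
  rw [div_le_iff₀ hκ] at hLb
  have hpow := hL1 L hLd m hm
  rw [hL, Real.exp_log hNpos] at hpow
  set μ : ℝ := TJ.PP.real {ω : ℕ → ℕ | E (stf bs fun j => ω j + 1)} with hμ
  have hμ0 : 0 ≤ μ := MeasureTheory.measureReal_nonneg
  have hμ1 : μ ≤ 1 := MeasureTheory.measureReal_le_one
  have hI0 : (0 : ℝ) ≤ I := Nat.cast_nonneg _
  have hLpos : 0 ≤ L := by linarith
  have hwin : ∀ i < I, PB (ZE d S bs E) (((N : ℝ) + 1) / 2 ^ (i + 1)) m (ρ * μ + ε / 4) := by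
    intro i hi
    have hpos : 0 < ((N : ℝ) + 1) / 2 ^ (i + 1) := by positivity
    have hlog : Real.log (((N : ℝ) + 1) / 2 ^ (i + 1)) = Real.log (N + 1) - (i + 1) * Real.log 2 := by
      rw [Real.log_div (by positivity) (by positivity), Real.log_pow]
      push_cast
      ring
    have h1 : L ≤ Real.log (N + 1) := Real.log_le_log hNpos (by linarith)
    have h2 : Real.log (N + 1) ≤ L + 1 := by
      have h3 : Real.log (N + 1) ≤ Real.log (2 * N) := Real.log_le_log (by positivity) (by linarith)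
      rw [Real.log_mul (by norm_num) hNpos.ne'] at h3
      have := Real.log_two_lt_d9
      linarith
    have h3 : ((i : ℝ) + 1) * Real.log 2 ≤ I := by
      have h4 : (i : ℝ) + 1 ≤ I := by exact_mod_cast hi
      have h5 := Real.log_two_lt_d9
      have h6 := Real.log_pos (by norm_num : (1 : ℝ) < 2)
      nlinarith
    have h4 : 0 ≤ ((i : ℝ) + 1) * Real.log 2 := by
      have := Real.log_pos (by norm_num : (1 : ℝ) < 2)
      positivity
    have habs : |Real.log (((N : ℝ) + 1) / 2 ^ (i + 1)) - L| ≤ κ * L / 8 := by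
      rw [hlog, abs_le]
      constructor <;> linarith
    apply hup L hLa d hd hd3 hdL S ρ hρ hPB bs hbs hsum E _ hpos habs m
    have h5 := (abs_le.1 habs).1
    have h7 : κ * L ≤ L := by nlinarith
    linarith
  have h1 := win_cls (v := v) (by positivity : 0 ≤ ρ * μ + ε / 4) hu I ((N : ℝ) + 1) (by positivity) hwin
  refine h1.trans ?_
  have h3m : (0 : ℝ) < 3 ^ m := by positivity
  have h2 : ((N : ℝ) + 1) / 2 ^ I / (2 * 3 ^ m) ≤ ε / 4 * ((N + 1) / (2 * 3 ^ m)) := by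
    have e : ((N : ℝ) + 1) / 2 ^ I / (2 * 3 ^ m) = (1 / 2) ^ I * ((N + 1) / (2 * 3 ^ m)) := by
      rw [one_div, inv_pow]; ring
    rw [e]
    exact mul_le_mul_of_nonneg_right hI.le (by positivity)
  have h4 : (1 : ℝ) ≤ ε / 8 * (N / (2 * 3 ^ m)) := by
    have e : ε / 8 * ((N : ℝ) / (2 * 3 ^ m)) = (ε / 16 * N) / 3 ^ m := by
      field_simp
      ring
    rw [e, le_div_iff₀ h3m]
    linarith
  have h5 : (ρ * μ + ε / 2) * (1 / (2 * 3 ^ m)) ≤ ε / 8 * (N / (2 * 3 ^ m)) := by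
    have h6 : ρ * μ ≤ 2 := by nlinarith
    have e : ε / 8 * ((N : ℝ) / (2 * 3 ^ m)) = (ε / 8 * N) * (1 / (2 * 3 ^ m)) := by ring
    rw [e]
    apply mul_le_mul_of_nonneg_right _ (by positivity)
    rw [div_le_iff₀ hε] at hNc
    linarith
  have e1 : ((N : ℝ) + 1) / (2 * 3 ^ m) = N / (2 * 3 ^ m) + 1 / (2 * 3 ^ m) := by ring
  rw [e1] at h2 ⊢
  have h6 : 0 ≤ (N : ℝ) / (2 * 3 ^ m) := by positivity
  have h7 : 0 ≤ 1 / (2 * 3 ^ m : ℝ) := by positivity
  nlinarith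

/-- the law of the block sums in an invariant set of `3x+d`, in the classes mod `3^m` -/
theorem law_cls {d : ℤ} (hd : Odd d) (hd3 : IsCoprime d 3) {S : Set ℤ} (hS : Inv d S) {δ : ℝ}
    (hδ0 : 0 ≤ δ) (hδ1 : δ ≤ 1)
    (hδ : Tendsto (fun X : ℝ => G S X / X) atTop (𝓝 δ)) {κ : ℝ} (hκ : 0 < κ) (hκ1 : κ ≤ 1) {ε : ℝ}
    (hε : 0 < ε) : ∃ N0 : ℕ, ∀ N : ℕ, N0 ≤ N → ∀ bs : List ℕ, (∀ b ∈ bs, κ * Real.log N ≤ b) →
    ((bs.sum : ℕ) : ℝ) ≤ (1 - κ) * Real.log N / (2 * mu) →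
    ∀ E : List ℕ → Prop, MeasurableSet {ω : ℕ → ℕ | E (stf bs fun j => ω j + 1)} →
    ∀ (m : ℕ) (u v : ℤ), (m : ℝ) ^ 2 ≤ Real.log N / 4 → IsCoprime u 3 →
      |((cls (ZE d S bs E) 0 (N + 1) m u v).card : ℝ) -
        δ * TJ.PP.real {ω : ℕ → ℕ | E (stf bs fun j => ω j + 1)} * (N / (2 * 3 ^ m))| ≤
          ε * (N / (2 * 3 ^ m)) := by
  classical
  obtain ⟨l, hl⟩ := density_exists hd hd3 hS.compl
  have hl1 : l = 1 - δ := by
    have := compl_density hδ hl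
    linarith
  rw [hl1] at hl
  set η : ℝ := min 1 (ε / 8) with hη
  have hη0 : 0 < η := lt_min one_pos (by positivity)
  have hη1 : η ≤ 1 := min_le_left _ _
  have hη8 : η ≤ ε / 8 := min_le_right _ _
  obtain ⟨N1, h1⟩ := upper_cls hκ hκ1 hη0
  obtain ⟨A0, hA0, hPB⟩ := class_bound' hd hd3 hS hδ hη0
  obtain ⟨N2, h2⟩ := PB_all hκ hA0 hPB
  obtain ⟨A0', hA0', hPB'⟩ := class_bound' hd hd3 hS.compl hl hη0
  obtain ⟨N2', h2'⟩ := PB_all hκ hA0' hPB'
  obtain ⟨L1, hL1⟩ := pow_small (η / 2) (by positivity)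
  refine ⟨max (max (max N1 N2) N2') (max (max 1 ⌈Real.exp L1⌉₊) ⌈Real.exp (20 * Real.log (|(d : ℝ)| + 1) / κ)⌉₊),
    fun N hN bs hbs hsum E hE m u v hm hu => ?_⟩
  have hNN1 : N1 ≤ N := (((le_max_left _ _).trans (le_max_left _ _)).trans (le_max_left _ _)).trans hN
  have hNN2 : N2 ≤ N := (((le_max_right _ _).trans (le_max_left _ _)).trans (le_max_left _ _)).trans hN
  have hNN2' : N2' ≤ N := ((le_max_right _ _).trans (le_max_left _ _)).trans hN
  have hN1 : 1 ≤ N :=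
    (((le_max_left _ _).trans (le_max_left _ _)).trans (le_max_right _ _)).trans hN
  have hNR : (1 : ℝ) ≤ N := by exact_mod_cast hN1
  have hNpos : (0 : ℝ) < N := by linarith
  have hNd : Real.exp L1 ≤ N := by
    refine (Nat.le_ceil _).trans ?_
    exact_mod_cast (((le_max_right _ _).trans (le_max_left _ _)).trans (le_max_right _ _)).trans hN
  have hNe : Real.exp (20 * Real.log (|(d : ℝ)| + 1) / κ) ≤ N := by
    refine (Nat.le_ceil _).trans ?_
    exact_mod_cast ((le_max_right _ _).trans (le_max_right _ _)).trans hN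
  have hdL : |(d : ℝ)| ≤ Real.exp (κ * Real.log N / 20) := by
    have h3 : 20 * Real.log (|(d : ℝ)| + 1) / κ ≤ Real.log N := (Real.le_log_iff_exp_le hNpos).2 hNe
    rw [div_le_iff₀ hκ] at h3
    have h4 : 0 < |(d : ℝ)| + 1 := by positivity
    have h5 : |(d : ℝ)| + 1 ≤ Real.exp (κ * Real.log N / 20) := by
      rw [← Real.log_le_iff_le_exp h4]
      linarith
    linarith
  have hpow := hL1 (Real.log N) ((Real.le_log_iff_exp_le hNpos).2 hNd) m hm
  rw [Real.exp_log hNpos] at hpow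
  have h3m : (0 : ℝ) < 3 ^ m := by positivity
  set μ : ℝ := TJ.PP.real {ω : ℕ → ℕ | E (stf bs fun j => ω j + 1)} with hμ
  have hμ0 : 0 ≤ μ := MeasureTheory.measureReal_nonneg
  have hμ1 : μ ≤ 1 := MeasureTheory.measureReal_le_one
  have hμc : TJ.PP.real {ω : ℕ → ℕ | ¬ E (stf bs fun j => ω j + 1)} = 1 - μ := by
    rw [hμ, ← MeasureTheory.probReal_compl_eq_one_sub hE]
    rfl
  have hμu : TJ.PP.real {ω : ℕ → ℕ | (fun _ : List ℕ => True) (stf bs fun j => ω j + 1)} ≤ 1 :=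
    MeasureTheory.measureReal_le_one
  set Y : ℝ := (N : ℝ) / (2 * 3 ^ m) with hY
  have hY0 : 0 < Y := by positivity
  have u1 := h1 N hNN1 d hd hd3 hdL S (δ + η) (by positivity) (by linarith) (h2 N hNN2) bs hbs hsum E m u v hm hu
  have u2 := h1 N hNN1 d hd hd3 hdL S (δ + η) (by positivity) (by linarith) (h2 N hNN2) bs hbs hsum
    (fun l => ¬ E l) m u v hm hu
  have u3 := h1 N hNN1 d hd hd3 hdL Sᶜ (1 - δ + η) (by linarith) (by linarith) (h2' N hNN2') bs hbs hsum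
    (fun _ => True) m u v hm hu
  rw [hμc] at u2
  rw [← hμ] at u1
  have htot : Y - η * Y ≤ ((cls (Set.univ : Set ℤ) 0 (N + 1) m u v).card : ℝ) := by
    have h3 := le_cls_univ 0 ((N : ℝ) + 1) m hu v
    rw [sub_zero] at h3
    have h4 : (1 : ℝ) ≤ η * Y := by
      have e : η * Y = (η / 2 * N) / 3 ^ m := by rw [hY]; ring
      rw [e, le_div_iff₀ h3m]
      linarith
    have e1 : ((N : ℝ) + 1) / (2 * 3 ^ m) = Y + 1 / (2 * 3 ^ m) := by rw [hY]; ring
    rw [e1] at h3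
    have h7 : 0 ≤ 1 / (2 * 3 ^ m : ℝ) := by positivity
    linarith
  have hsub : cls (Set.univ : Set ℤ) 0 (N + 1) m u v ⊆
      (cls (ZE d S bs E) 0 (N + 1) m u v ∪ cls (ZE d S bs fun l => ¬ E l) 0 (N + 1) m u v) ∪
        cls (ZE d Sᶜ bs fun _ => True) 0 (N + 1) m u v := by
    intro x hx
    rw [mem_cls] at hx
    rw [mem_union, mem_union, mem_cls, mem_cls, mem_cls]
    obtain ⟨h1, h2, _, h4⟩ := hx
    by_cases h3 : (Sy d)^[bs.sum] x ∈ S
    · left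
      by_cases hEx : E (stf bs fun j => ex d ((Sy d)^[j] x))
      · exact Or.inl ⟨h1, h2, ⟨h3, hEx⟩, h4⟩
      · exact Or.inr ⟨h1, h2, ⟨h3, hEx⟩, h4⟩
    · exact Or.inr ⟨h1, h2, ⟨h3, trivial⟩, h4⟩
  have h5 : ((cls (Set.univ : Set ℤ) 0 (N + 1) m u v).card : ℝ) ≤
      (cls (ZE d S bs E) 0 (N + 1) m u v).card + (cls (ZE d S bs fun l => ¬ E l) 0 (N + 1) m u v).card +
        (cls (ZE d Sᶜ bs fun _ => True) 0 (N + 1) m u v).card := by
    have h6 := (card_le_card hsub).trans ((card_union_le _ _).trans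
      (Nat.add_le_add_right (card_union_le _ _) _))
    exact_mod_cast h6
  have u3' : ((cls (ZE d Sᶜ bs fun _ => True) 0 (N + 1) m u v).card : ℝ) ≤ (1 - δ + 2 * η) * Y := by
    refine u3.trans ?_
    apply mul_le_mul_of_nonneg_right _ hY0.le
    have h6 : (1 - δ + η) * TJ.PP.real {ω : ℕ → ℕ | (fun _ : List ℕ => True) (stf bs fun j => ω j + 1)} ≤
        (1 - δ + η) * 1 := mul_le_mul_of_nonneg_left hμu (by linarith)
    linarith
  have h8 : η * μ ≤ η := by nlinarith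
  have h9 : η * Y ≤ ε / 8 * Y := mul_le_mul_of_nonneg_right hη8 hY0.le
  have h10 : 0 ≤ η * μ * Y := by positivity
  have h11 : η * μ * Y ≤ η * Y := mul_le_mul_of_nonneg_right h8 hY0.le
  rw [abs_le]
  constructor <;> nlinarith

end Pool.Agent.TH977.IP
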