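import Pool.Agent.TH977.IP.Seq
import Pool.Agent.TH977.IP.Core
import Pool.Agent.H499R2.CL.J

/-! The exponents of the accelerated map, words, and the model. -/

set_option autoImplicit false

namespace Pool.Agent.TH977.IP

open Pool.Agent.H320R2.PD Pool.Agent.H499R2.ND Finset Filter Topology

/-- the exponent of `2` in `3 x + d` -/
def ex (d x : ℤ) : ℕ := padicValInt 2 (3 * x + d)

/-- the odd part of `3 x + d` -/
def Sy (d x : ℤ) : ℤ := (3 * x + d) / 2 ^ ex d x

theorem step_eq {d M M₁ : ℤ} {e : ℕ} (h : 3 * M + d = 2 ^ e * M₁) (hM : Odd M₁) :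
    ex d M = e ∧ Sy d M = M₁ := by
  have h0 : M₁ ≠ 0 := by
    rintro rfl
    exact absurd hM (by decide)
  have h1 : ex d M = e := by
    unfold ex padicValInt
    rw [h, Int.natAbs_mul, Int.natAbs_pow]
    have h2 : (2 : ℤ).natAbs = 2 := rfl
    rw [h2, padicValNat.mul (by positivity) (Int.natAbs_ne_zero.2 h0), padicValNat.prime_pow,
      padicValNat.eq_zero_of_not_dvd, add_zero]
    intro hd
    have h3 : (2 : ℤ) ∣ M₁ := by
      rw [← Int.natAbs_dvd_natAbs]; exact hd
    rw [← Int.not_even_iff_odd] at hM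
    exact hM (even_iff_two_dvd.2 h3)
  refine ⟨h1, ?_⟩
  unfold Sy
  rw [h1, h]
  exact Int.mul_ediv_cancel_left _ (by positivity)

theorem Sy_spec {d : ℤ} (hd : Odd d) (hd3 : IsCoprime d 3) {M : ℤ} (hM : Odd M) :
    1 ≤ ex d M ∧ Odd (Sy d M) ∧ 3 * M + d = 2 ^ ex d M * Sy d M := by
  have hne : 3 * M + d ≠ 0 := by
    intro h
    have h1 : (3 : ℤ) ∣ d := ⟨-M, by linarith⟩
    have h2 : IsUnit (3 : ℤ) := hd3.isUnit_of_dvd' h1 dvd_rfl
    rw [Int.isUnit_iff] at h2
    omega
  have hfin : FiniteMultiplicity (2 : ℤ) (3 * M + d) :=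
    Int.finiteMultiplicity_iff.2 ⟨by decide, hne⟩
  obtain ⟨q, hq, hq2⟩ := hfin.exists_eq_pow_mul_and_not_dvd
  have hodd : Odd q := by
    rw [← Int.not_even_iff_odd]
    intro h
    exact hq2 (even_iff_two_dvd.1 h)
  obtain ⟨h1, h2⟩ := step_eq hq hodd
  refine ⟨?_, by rw [h2]; exact hodd, by rw [h1, h2]; exact hq⟩
  by_contra hcon
  have h3 : ex d M = 0 := by omega
  rw [h3] at h1
  rw [← h1, pow_zero, one_mul] at hq
  have h4 : Even (3 * M + d) := Odd.add_odd (Odd.mul (by decide) hM) hd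
  rw [hq, ← Int.not_odd_iff_even] at h4
  exact h4 hodd

theorem Sy_mem {d : ℤ} (hd : Odd d) (hd3 : IsCoprime d 3) {S : Set ℤ} (hS : Fwd d S) {M : ℤ}
    (hM : Odd M) (hMS : M ∈ S) : Sy d M ∈ S := by
  obtain ⟨h1, h2, h3⟩ := Sy_spec hd hd3 hM
  exact hS M (Sy d M) (ex d M) h1 hM h2 hMS h3

theorem iter_mem {d : ℤ} (hd : Odd d) (hd3 : IsCoprime d 3) {S : Set ℤ} (hS : Fwd d S) {M : ℤ}
    (hM : Odd M) (hMS : M ∈ S) (k : ℕ) : Odd ((Sy d)^[k] M) ∧ (Sy d)^[k] M ∈ S := by
  induction k with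
  | zero => exact ⟨hM, hMS⟩
  | succ k ih =>
    rw [Function.iterate_succ_apply']
    exact ⟨(Sy_spec hd hd3 ih.1).2.1, Sy_mem hd hd3 hS ih.1 ih.2⟩

theorem word_seq {d : ℤ} (hd : Odd d) (w : List ℕ) : (∀ a ∈ w, 1 ≤ a) → ∀ M x : ℤ, Odd x → Vw d w M x →
    w.sum = ∑ j ∈ range w.length, ex d ((Sy d)^[j] M) ∧ x = (Sy d)^[w.length] M := by
  induction w using List.reverseRecOn with
  | nil =>
    intro _ M x _ h
    unfold Vw at h
    simp [Wo] at h
    simp [h]
  | append_singleton u e ih =>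
    intro hw M x hx h
    have hu : ∀ a ∈ u, 1 ≤ a := fun a ha => hw a (by simp [ha])
    obtain ⟨M₁, hM₁, h1, h2⟩ := Vw_snoc hd hu hx h
    obtain ⟨h3, h4⟩ := step_eq h1 hM₁
    obtain ⟨h5, h6⟩ := ih hu M₁ x hx h2
    rw [List.sum_append, List.length_append, List.length_singleton, List.sum_singleton,
      Finset.sum_range_succ']
    simp only [Function.iterate_succ_apply, Function.iterate_zero, id]
    rw [h4, h3, h5, ← h6]
    exact ⟨rfl, rfl⟩

theorem mem_SE {d : ℤ} (hd : Odd d) {S : Set ℤ} (ks : List ℕ) :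
    ∀ (E : List ℕ → Prop) (M : ℤ), (Sy d)^[ks.sum] M ∈ S → E (stf ks fun j => ex d ((Sy d)^[j] M)) →
      M ∈ SE d S ks E := by
  induction ks with
  | nil =>
    intro E M hMS hE
    exact ⟨hE, hMS⟩
  | cons k ks ih =>
    intro E M hMS hE
    intro w hl hw x hx hV
    obtain ⟨h1, h2⟩ := word_seq hd w hw M x hx hV
    rw [hl] at h1 h2
    rw [List.sum_cons] at hMS
    have e0 : (Sy d)^[ks.sum] x = (Sy d)^[k + ks.sum] M := by
      rw [h2, ← Function.iterate_add_apply, add_comm ks.sum k]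
    apply ih _ x (by rw [e0]; exact hMS)
    rw [h1]
    have e : (fun j => ex d ((Sy d)^[j] x)) = fun j => ex d ((Sy d)^[k + j] M) := by
      funext j
      rw [h2, ← Function.iterate_add_apply, add_comm j k]
    rw [e]
    exact hE

open Classical in
theorem WE_eq (cap : ℕ) (ks : List ℕ) : ∀ E : List ℕ → Prop, WE cap ks E =
    ∑ W ∈ (FW cap ks.sum).filter (fun W => E (stf ks fun j => W.getD j 0)), wwt W := by
  induction ks with
  | nil =>
    intro E
    rw [sum_filter]
    simp [WE, FW, stf, wwt]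
  | cons k ks ih =>
    intro E
    rw [sum_filter, List.sum_cons, sum_FW_add]
    unfold WE
    apply sum_congr rfl
    intro w hw
    rw [ih, sum_filter, mul_sum]
    apply sum_congr rfl
    intro v hv
    have hl : w.length = k := (mem_FW.1 hw).1
    have e : stf (k :: ks) (fun j => (w ++ v).getD j 0) = w.sum :: stf ks fun j => v.getD j 0 := by
      show (∑ j ∈ range k, (w ++ v).getD j 0) :: stf ks (fun j => (w ++ v).getD (k + j) 0) =
        w.sum :: stf ks fun j => v.getD j 0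
      have e1 : ∑ j ∈ range k, (w ++ v).getD j 0 = w.sum := by
        rw [← TJ.sum_getD w, hl]
        apply sum_congr rfl
        intro j hj
        rw [List.getD_append _ _ _ _ (by rw [hl]; exact mem_range.1 hj)]
      have e2 : (fun j => (w ++ v).getD (k + j) 0) = fun j => v.getD j 0 := by
        funext j
        rw [List.getD_append_right _ _ _ _ (by omega), hl, Nat.add_sub_cancel_left]
      rw [e1, e2]
    rw [e, wwt_append]
    split_ifs
    · rfl
    · rw [mul_zero]

theorem WE_le (cap : ℕ) (ks : List ℕ) (E : List ℕ → Prop) :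
    WE cap ks E ≤ TJ.PP.real {ω : ℕ → ℕ | E (stf ks fun j => ω j + 1)} := by
  classical
  rw [WE_eq]
  have h1 : ∑ W ∈ (FW cap ks.sum).filter (fun W => E (stf ks fun j => W.getD j 0)), wwt W =
      TJ.PP.real (⋃ W ∈ (FW cap ks.sum).filter (fun W => E (stf ks fun j => W.getD j 0)),
        TJ.cyl ks.sum W) := by
    rw [MeasureTheory.measureReal_biUnion_finset]
    · apply Finset.sum_congr rfl
      intro w hw
      rw [TJ.cyl_meas (mem_filter.1 hw).1]
    · intro w hw w' hw' hne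
      exact TJ.cyl_disj (mem_filter.1 hw).1 (mem_filter.1 hw').1 hne
    · intro w _
      unfold TJ.cyl
      exact MeasurableSet.pi (Set.to_countable _) (fun _ _ => measurableSet_singleton _)
  rw [h1]
  apply MeasureTheory.measureReal_mono _ (MeasureTheory.measure_ne_top _ _)
  intro ω hω
  simp only [Set.mem_iUnion] at hω
  obtain ⟨w, hw, hω⟩ := hω
  rw [mem_filter] at hw
  rw [Set.mem_setOf_eq]
  have e : stf ks (fun j => ω j + 1) = stf ks fun j => w.getD j 0 := by
    apply stf_congr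
    intro j hj
    have e1 : ω j = w.getD j 0 - 1 := hω j (by simpa using hj)
    have p1 := TJ.getD_pos hw.1 hj
    omega
  rw [e]
  exact hw.2

end Pool.Agent.TH977.IP
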